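import Pool.Agent.Zk18.Th.Stm2

/-!
Linear independence at a special point gives linear independence at the generic point.
-/

set_option autoImplicit false

namespace Pool.Agent.Zk27.Th18

open TensorProduct Pool.Agent.Zk18.Fd Pool.Agent.Zk18.Th

section

variable {K L : Type} [Field K] [Field L] [Algebra K L]

/-- the coordinate of an element of `R ⊗ L` given by a linear form on `L` -/
noncomputable def co (R : Type) [CommRing R] [Algebra K R] (φ : L →ₗ[K] K) : R ⊗[K] L →ₗ[K] R :=
  (TensorProduct.rid K R).toLinearMap ∘ₗ LinearMap.lTensor R φ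

theorem co_tmul (R : Type) [CommRing R] [Algebra K R] (φ : L →ₗ[K] K) (r : R) (l : L) :
    co R φ (r ⊗ₜ[K] l) = φ l • r := by
  simp [co]

theorem co_smul (F : Type) [Field F] [Algebra K F] (φ : L →ₗ[K] K) (g : F) (x : F ⊗[K] L) :
    co F φ (g • x) = g * co F φ x := by
  induction x using TensorProduct.induction_on with
  | zero => simp
  | tmul a l =>
    rw [TensorProduct.smul_tmul', co_tmul, co_tmul, smul_eq_mul, mul_smul_comm]
  | add x y hx hy => rw [smul_add, map_add, map_add, hx, hy, mul_add]

theorem co_map {A F : Type} [CommRing A] [Algebra K A] [Field F] [Algebra K F] (ι : A →ₐ[K] F)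
    (φ : L →ₗ[K] K) (x : A ⊗[K] L) :
    co F φ (Algebra.TensorProduct.map ι (AlgHom.id K L) x) = ι (co A φ x) := by
  induction x using TensorProduct.induction_on with
  | zero => simp
  | tmul a l =>
    rw [Algebra.TensorProduct.map_tmul, co_tmul, co_tmul, map_smul]
    rfl
  | add x y hx hy => rw [map_add, map_add, map_add, map_add, hx, hy]

theorem co_sg [CharZero K] {A : Type} [CommRing A] [Algebra K A] (s : A →ₐ[K] K)
    (φ : L →ₗ[K] K) (x : A ⊗[K] L) : s (co A φ x) = φ (sg L s x) := by
  induction x using TensorProduct.induction_on with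
  | zero => simp
  | tmul a l =>
    rw [co_tmul, sg_tmul, map_smul, ← Algebra.smul_def, map_smul, smul_eq_mul, smul_eq_mul,
      mul_comm]
  | add x y hx hy => rw [map_add, map_add, map_add, map_add, hx, hy]

theorem pm_smul [CharZero K] (F E : Type) [Field F] [Field E] [Algebra K F]
    [Algebra F E] [Algebra L E] [Algebra K E] [IsScalarTower K F E] [IsScalarTower K L E]
    (g : F) (x : F ⊗[K] L) : pm K F L E (g • x) = g • pm K F L E x := by
  induction x using TensorProduct.induction_on with
  | zero => simp
  | tmul a l =>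
    rw [TensorProduct.smul_tmul', pm_tmul, pm_tmul, smul_eq_mul, map_mul, Algebra.smul_def, mul_assoc]
  | add x y hx hy => rw [smul_add, map_add, map_add, hx, hy, smul_add]

end

theorem t_GLI : S_GLI := by
  intro K F L E A _ _ _ _ _ _ _ _ _ _ _ _ _ _ hdis ι hι s κ _ τ hs
  classical
  obtain ⟨ψ, hψ⟩ := LinearMap.exists_leftInverse_of_injective
    (Fintype.linearCombination K (fun i => sg L s (τ i)))
    (LinearMap.ker_eq_bot.mpr (linearIndependent_iff_injective_fintypeLinearCombination.mp hs))
  have hψ' : ∀ i, ψ (sg L s (τ i)) = Pi.single i 1 := by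
    intro i
    have h1 := LinearMap.congr_fun hψ (Pi.single i 1)
    rwa [LinearMap.comp_apply, Fintype.linearCombination_apply_single, one_smul] at h1
  let M : Matrix κ κ A := fun i i' => co A (LinearMap.proj i' ∘ₗ ψ) (τ i)
  have hM : (s : A →+* K).mapMatrix M = 1 := by
    ext i i'
    rw [RingHom.mapMatrix_apply, Matrix.map_apply]
    show s (co A (LinearMap.proj i' ∘ₗ ψ) (τ i)) = _
    rw [co_sg, LinearMap.comp_apply, hψ' i, LinearMap.proj_apply, Matrix.one_apply, Pi.single_apply]
    by_cases h : i = i'
    · rw [if_pos h, if_pos h.symm]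
    · rw [if_neg h, if_neg (Ne.symm h)]
  have hdet : s M.det = 1 := by
    have h1 : s M.det = ((s : A →+* K).mapMatrix M).det := RingHom.map_det (s : A →+* K) _
    rw [h1, hM, Matrix.det_one]
  have hdet0 : M.det ≠ 0 := by
    intro h
    rw [h, map_zero] at hdet
    exact zero_ne_one hdet
  have hdetF : ((ι : A →+* F).mapMatrix M).det ≠ 0 := by
    rw [← RingHom.map_det]
    intro h
    exact hdet0 (hι (by rw [map_zero]; exact h))
  rw [Fintype.linearIndependent_iff]
  intro g hg
  have h1 : pm K F L E (∑ i, g i • Algebra.TensorProduct.map ι (AlgHom.id K L) (τ i)) = 0 := by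
    rw [map_sum, ← hg]
    exact Finset.sum_congr rfl fun i _ => pm_smul F E _ _
  have h2 : ∑ i, g i • Algebra.TensorProduct.map ι (AlgHom.id K L) (τ i) = 0 :=
    hdis (by rw [h1, map_zero])
  have h3 : Matrix.vecMul g ((ι : A →+* F).mapMatrix M) = 0 := by
    funext i'
    have h4 := congrArg (co F (LinearMap.proj i' ∘ₗ ψ)) h2
    rw [map_sum, map_zero] at h4
    rw [Pi.zero_apply, ← h4, Matrix.vecMul, dotProduct]
    refine Finset.sum_congr rfl fun i _ => ?_
    rw [co_smul, co_map]
    rfl
  exact fun i => congrFun (Matrix.eq_zero_of_vecMul_eq_zero hdetF h3) i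

end Pool.Agent.Zk27.Th18
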